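import Mathlib

set_option autoImplicit false

namespace Pool.Agent.P.MP_cda11a_an

open OnePoint Filter Topology Set

theorem exists_ext (e : ℤ ≃ ℤ) : ∃ f : OnePoint ℤ → OnePoint ℤ, Continuous f ∧ f ∞ = ∞ ∧
    ∀ a : ℤ, f a = (e a : ℤ) :=
  ⟨(Homeomorph.onePointCongr e.toHomeomorphOfDiscrete), Homeomorph.continuous _, rfl,
    fun _ => rfl⟩

theorem isClosed_side (p : ℤ → Prop) :
    IsClosed {s : OnePoint ℤ | ∀ a : ℤ, s = a → p a} := by
  have : {s : OnePoint ℤ | ∀ a : ℤ, s = a → p a}ᶜ = (↑) '' {a : ℤ | ¬ p a} := by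
    ext s
    simp only [mem_compl_iff, mem_ofPred_eq, mem_image]
    push Not
    constructor
    · rintro ⟨a, rfl, h⟩; exact ⟨a, h, rfl⟩
    · rintro ⟨a, h, rfl⟩; exact ⟨a, rfl, h⟩
  rw [← isOpen_compl_iff, this]
  exact isOpen_image_coe.2 (isOpen_discrete _)

theorem isOpen_iff_eq (c : ℤ) :
    IsOpen {q : OnePoint ℤ × OnePoint ℤ | q.1 = c ↔ q.2 = c} := by
  have h1 : IsOpen ({(c : OnePoint ℤ)} : Set (OnePoint ℤ)) := by
    rw [← image_singleton]; exact isOpen_image_coe.2 (isOpen_discrete _)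
  have h2 : IsOpen ({(c : OnePoint ℤ)}ᶜ : Set (OnePoint ℤ)) := isOpen_compl_singleton
  have : {q : OnePoint ℤ × OnePoint ℤ | q.1 = c ↔ q.2 = c} =
      ({(c : OnePoint ℤ)} ×ˢ {(c : OnePoint ℤ)}) ∪
        (({(c : OnePoint ℤ)}ᶜ : Set (OnePoint ℤ)) ×ˢ ({(c : OnePoint ℤ)}ᶜ : Set (OnePoint ℤ))) := by
    ext q
    simp only [mem_ofPred_eq, mem_union, mem_prod, mem_singleton_iff, mem_compl_iff]
    tauto
  rw [this]
  exact (h1.prod h1).union (h2.prod h2)

theorem tendsto_nat : Tendsto (fun j : ℕ => (((j : ℤ)) : OnePoint ℤ)) atTop (𝓝 ∞) := by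
  refine tendsto_coe_infty.comp ?_
  rw [coclosedCompact_eq_cocompact, cocompact_eq_cofinite, ← Nat.cofinite_eq_atTop]
  exact Nat.cast_injective.tendsto_cofinite

/-- The counterexample. -/
theorem counterexample : ∃ G : Set ((OnePoint ℤ × OnePoint ℤ) × (OnePoint ℤ × OnePoint ℤ)),
    IsClosed G ∧ (∀ p, ∃ q, (p, q) ∈ G ∧ (q, p) ∈ G) ∧
    ∃ U ∈ 𝓝ˢ (diagonal (OnePoint ℤ × OnePoint ℤ)),
      ∀ V ∈ 𝓝ˢ (diagonal (OnePoint ℤ × OnePoint ℤ)), ∃ x : ℕ → OnePoint ℤ × OnePoint ℤ,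
        (∀ m y, (x m, y) ∈ G → (y, x (m + 1)) ∈ V) ∧
        ¬ ∃ y : ℕ → OnePoint ℤ × OnePoint ℤ,
          (∀ m, (y m, y (m + 1)) ∈ G) ∧ ∀ m, (y m, x m) ∈ U := by
  obtain ⟨σ, hσ, hσi, hσa⟩ := exists_ext (Equiv.addRight 1)
  obtain ⟨τ, hτ, hτi, hτa⟩ := exists_ext (Equiv.subRight 1)
  obtain ⟨ι, hι, hιi, hιa⟩ := exists_ext (Equiv.subLeft (-1))
  obtain ⟨ν, hν, hνi, hνa⟩ := exists_ext (Equiv.neg ℤ)
  simp only [Equiv.coe_addRight, Equiv.subRight_apply, Equiv.subLeft_apply,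
    Equiv.neg_apply] at hσa hτa hιa hνa
  have hτσ : ∀ s, τ (σ s) = s := by
    intro s; induction s using OnePoint.rec with
    | infty => rw [hσi, hτi]
    | coe a => rw [hσa, hτa]; simp
  have hστ : ∀ s, σ (τ s) = s := by
    intro s; induction s using OnePoint.rec with
    | infty => rw [hτi, hσi]
    | coe a => rw [hτa, hσa]; simp
  have hιι : ∀ s, ι (ι s) = s := by
    intro s; induction s using OnePoint.rec with
    | infty => rw [hιi, hιi]
    | coe a => rw [hιa, hιa]; simp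
  refine ⟨{z | z.2.2 = ι z.1.2 ∧
    (((∀ a : ℤ, z.1.2 = a → 0 ≤ a) ∧ z.2.1 = σ z.1.1) ∨
      ((∀ a : ℤ, z.1.2 = a → a < 0) ∧ z.2.1 = τ z.1.1))}, ?_, ?_, ?_⟩
  · refine (isClosed_eq (by fun_prop) (by fun_prop)).inter (IsClosed.union
      (IsClosed.inter ?_ (isClosed_eq (by fun_prop) (by fun_prop)))
      (IsClosed.inter ?_ (isClosed_eq (by fun_prop) (by fun_prop))))
    · exact (isClosed_side fun a => 0 ≤ a).preimage (continuous_snd.comp continuous_fst)
    · exact (isClosed_side fun a => a < 0).preimage (continuous_snd.comp continuous_fst)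
  · rintro ⟨a, s⟩
    by_cases h : ∀ b : ℤ, s = b → 0 ≤ b
    · refine ⟨(σ a, ι s), ⟨rfl, Or.inl ⟨h, rfl⟩⟩, (hιι s).symm, Or.inr ⟨?_, (hτσ a).symm⟩⟩
      intro b hb
      have hb' : ι s = b := hb
      have h1 : s = ((-1 - b : ℤ) : OnePoint ℤ) := by rw [← hιa, ← hb', hιι]
      have := h _ h1
      omega
    · push Not at h
      obtain ⟨b, rfl, hb⟩ := h
      refine ⟨(τ a, ι b), ⟨rfl, Or.inr ⟨?_, rfl⟩⟩, (hιι b).symm, Or.inl ⟨?_, (hστ a).symm⟩⟩
      · intro c hc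
        have : b = c := coe_injective hc
        omega
      · intro c hc
        have hc' : ι b = c := hc
        rw [hιa] at hc'
        have : -1 - b = c := coe_injective hc'
        omega
  refine ⟨{z | (z.1.1 = ((0 : ℤ) : OnePoint ℤ) ↔ z.2.1 = ((0 : ℤ) : OnePoint ℤ)) ∧
      (z.1.1 = ((1 : ℤ) : OnePoint ℤ) ↔ z.2.1 = ((1 : ℤ) : OnePoint ℤ)) ∧
      (z.1.1 = ((-1 : ℤ) : OnePoint ℤ) ↔ z.2.1 = ((-1 : ℤ) : OnePoint ℤ))}, ?_, ?_⟩
  · have hc : Continuous fun z : (OnePoint ℤ × OnePoint ℤ) × (OnePoint ℤ × OnePoint ℤ) =>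
        (z.1.1, z.2.1) := by fun_prop
    refine (IsOpen.mem_nhdsSet (((isOpen_iff_eq 0).preimage hc).inter
      (((isOpen_iff_eq 1).preimage hc).inter ((isOpen_iff_eq (-1)).preimage hc)))).2 ?_
    rintro ⟨p, q⟩ (h : p = q)
    subst h
    exact ⟨Iff.rfl, Iff.rfl, Iff.rfl⟩
  intro V hV
  have hV' : ∀ p : OnePoint ℤ × OnePoint ℤ, V ∈ 𝓝 (p, p) := fun p =>
    mem_nhdsSet_iff_forall.1 hV (p, p) rfl
  have h1 : ∀ᶠ s in 𝓝 (∞ : OnePoint ℤ), ∀ a ∈ (univ : Set (OnePoint ℤ)),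
      ((a, ι s), (a, s)) ∈ V := by
    refine isCompact_univ.eventually_forall_of_forall_eventually fun a _ => ?_
    have hc : Continuous fun z : OnePoint ℤ × OnePoint ℤ => ((z.2, ι z.1), (z.2, z.1)) := by
      fun_prop
    refine hc.continuousAt.eventually_mem ?_
    simpa only [hιi] using hV' (a, ∞)
  have h2 : ∀ᶠ s in 𝓝 (∞ : OnePoint ℤ), ((s, ι s), (ν s, s)) ∈ V := by
    have hc : Continuous fun s : OnePoint ℤ => ((s, ι s), (ν s, s)) := by fun_prop
    refine hc.continuousAt.eventually_mem ?_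
    simpa only [hιi, hνi] using hV' (∞, ∞)
  obtain ⟨j, ⟨hj1, hj2⟩, hj⟩ :=
    ((tendsto_nat.eventually (h1.and h2)).and (eventually_ge_atTop 2)).exists
  refine ⟨fun m => (((if m < j then (m : ℤ) else (m : ℤ) - 2 * j : ℤ) : OnePoint ℤ),
    ((j : ℤ) : OnePoint ℤ)), ?_, ?_⟩
  · rintro m ⟨a, s⟩ ⟨hs, h | h⟩
    · have hs' : s = ι ((j : ℤ) : OnePoint ℤ) := hs
      have ha : a = σ ((if m < j then (m : ℤ) else (m : ℤ) - 2 * j : ℤ) : OnePoint ℤ) := h.2
      rw [hσa] at ha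
      subst hs' ha
      by_cases hm : m + 1 = j
      · have e1 : (if m < j then (m : ℤ) else (m : ℤ) - 2 * j : ℤ) + 1 = j := by
          rw [if_pos (by omega)]; omega
        have e2 : (if m + 1 < j then ((m + 1 : ℕ) : ℤ) else ((m + 1 : ℕ) : ℤ) - 2 * j : ℤ)
            = -j := by
          rw [if_neg (by omega)]; omega
        simp only [e1, e2]
        rw [← hνa]
        exact hj2
      · have e1 : (if m + 1 < j then ((m + 1 : ℕ) : ℤ) else ((m + 1 : ℕ) : ℤ) - 2 * j : ℤ)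
            = (if m < j then (m : ℤ) else (m : ℤ) - 2 * j : ℤ) + 1 := by
          split_ifs <;> omega
        simp only [e1]
        exact hj1 _ (mem_univ _)
    · have := h.1 j rfl
      omega
  · rintro ⟨y, hy, hU⟩
    have key : ∀ m, 1 ≤ m → m < 2 * j → ∃ a : ℤ, 1 ≤ a ∧ (y m).1 = a := by
      intro m hm
      induction m, hm using Nat.le_induction with
      | base =>
        intro _
        refine ⟨1, le_rfl, (hU 1).2.1.2 ?_⟩
        simp only [if_pos (show 1 < j by omega)]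
        rfl
      | succ m hm ih =>
        intro hlt
        obtain ⟨a, ha, hya⟩ := ih (by omega)
        have h0 : (y (m + 1)).1 ≠ ((0 : ℤ) : OnePoint ℤ) := by
          intro h
          have h3 := coe_injective ((hU (m + 1)).1.1 h)
          split_ifs at h3 <;> omega
        rcases (hy m).2 with h | h
        · refine ⟨a + 1, by omega, ?_⟩
          rw [← hσa, ← hya]; exact h.2
        · have h3 : (y (m + 1)).1 = ((a - 1 : ℤ) : OnePoint ℤ) := by
            rw [← hτa, ← hya]; exact h.2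
          refine ⟨a - 1, ?_, h3⟩
          by_contra hc
          apply h0
          rw [h3]; congr 1; omega
    obtain ⟨a, ha, hya⟩ := key (2 * j - 1) (by omega) (by omega)
    have h3 : (y (2 * j - 1)).1 = ((-1 : ℤ) : OnePoint ℤ) := by
      refine (hU (2 * j - 1)).2.2.2 ?_
      simp only [if_neg (show ¬ (2 * j - 1 < j) by omega)]
      congr 1; omega
    rw [hya] at h3
    have := coe_injective h3
    omega

end Pool.Agent.P.MP_cda11a_an
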